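import Pool.Agent.K1H22.DF.Stm5

set_option autoImplicit false

namespace Pool.Agent.K1H99.DF

open Pool.Agent.K1H22.DF Finset

theorem hub_anti {V : Type} [Fintype V] [DecidableEq V] (G : SimpleGraph V) [DecidableRel G.Adj]
    {D D' : ℕ} (h : D ≤ D') : hub G D' ⊆ hub G D := by
  intro v hv
  simp only [hub, mem_filter, mem_univ, true_and] at hv ⊢
  omega

/-- the thresholds -/
noncomputable def EE (C : ℕ → ℕ) (D0 : ℕ) (K ε : ℝ) : ℕ → ℕ
  | 0 => D0
  | i + 1 => EE C D0 K ε i + 1 + ⌈2 * K * (C (EE C D0 K ε i) : ℝ) / ε⌉₊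

theorem EE_mono (C : ℕ → ℕ) (D0 : ℕ) (K ε : ℝ) : Monotone (EE C D0 K ε) := by
  refine monotone_nat_of_le_succ fun i => ?_
  change EE C D0 K ε i ≤ EE C D0 K ε i + 1 + _
  omega

/-- **Piece SCALE.** -/
theorem t_SCALE : S_SCALE := by
  intro C D0 K0 ε hε
  set K := max K0 1 with hK
  have hK1 : 1 ≤ K := le_max_right _ _
  have hK0 : K0 ≤ K := le_max_left _ _
  set L := ⌈2 * K / ε⌉₊ + 1 with hL
  set E := EE C D0 K ε with hE
  refine ⟨E L, ?_⟩
  intro V _ _ G _ hsum0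
  set N : ℝ := (Fintype.card V : ℝ) with hN
  have hN0 : 0 ≤ N := by positivity
  have hsum : ((∑ v, G.degree v : ℕ) : ℝ) ≤ K * N :=
    hsum0.trans (mul_le_mul_of_nonneg_right hK0 hN0)
  let H : ℕ → ℝ := fun i => ((∑ v ∈ hub G (E i), G.degree v : ℕ) : ℝ)
  have hH0 : ∀ i, 0 ≤ H i := fun i => by positivity
  have hHle : ∀ i, H i ≤ K * N := by
    intro i
    refine le_trans ?_ hsum
    have h : (∑ v ∈ hub G (E i), G.degree v) ≤ ∑ v, G.degree v :=
      sum_le_sum_of_subset (subset_univ _)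
    exact Nat.cast_le.2 h
  have hLr : 2 * K / ε ≤ (L : ℝ) := by
    rw [hL]
    push_cast
    have := Nat.le_ceil (2 * K / ε)
    linarith
  have hKL : K ≤ (L : ℝ) * (ε / 2) := by
    rw [div_le_iff₀ hε] at hLr
    linarith
  obtain ⟨i, hi, hi2⟩ : ∃ i ∈ range L, H i - H (i + 1) ≤ ε / 2 * N := by
    refine exists_le_of_sum_le (by rw [nonempty_range_iff]; omega) ?_
    rw [sum_range_sub', sum_const, card_range, nsmul_eq_mul]
    have h1 := hHle 0
    have h2 := hH0 L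
    have h3 : K * N ≤ L * (ε / 2) * N := mul_le_mul_of_nonneg_right hKL hN0
    linarith
  rw [mem_range] at hi
  refine ⟨E i, ?_, EE_mono C D0 K ε hi.le, ?_⟩
  · exact EE_mono C D0 K ε (Nat.zero_le i)
  have hsub : hub G (E (i + 1)) ⊆ hub G (E i) := hub_anti G (EE_mono C D0 K ε (Nat.le_succ i))
  have e1 : (∑ h ∈ hub G (E i), min (G.degree h) (C (E i))) ≤
      (∑ h ∈ hub G (E i) \ hub G (E (i + 1)), G.degree h) +
        (hub G (E (i + 1))).card * C (E i) := by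
    rw [← sum_sdiff hsub]
    refine add_le_add (sum_le_sum fun v _ => min_le_left _ _) ?_
    rw [← smul_eq_mul]
    exact sum_le_card_nsmul _ _ _ fun v _ => min_le_right _ _
  have e2 : ((∑ h ∈ hub G (E i) \ hub G (E (i + 1)), G.degree h : ℕ) : ℝ) = H i - H (i + 1) := by
    have := sum_sdiff (f := fun v => G.degree v) hsub
    change _ = ((∑ v ∈ hub G (E i), G.degree v : ℕ) : ℝ) -
      ((∑ v ∈ hub G (E (i + 1)), G.degree v : ℕ) : ℝ)
    rw [← this]
    push_cast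
    ring
  have e3 : ((hub G (E (i + 1))).card : ℝ) * (E (i + 1) : ℝ) ≤ K * N := by
    refine le_trans ?_ (hHle (i + 1))
    have : (hub G (E (i + 1))).card * E (i + 1) ≤ ∑ v ∈ hub G (E (i + 1)), G.degree v := by
      rw [← smul_eq_mul]
      refine card_nsmul_le_sum _ _ _ fun v hv => ?_
      simp only [hub, mem_filter, mem_univ, true_and] at hv
      exact hv
    have h2 : (((hub G (E (i + 1))).card * E (i + 1) : ℕ) : ℝ) ≤
        ((∑ v ∈ hub G (E (i + 1)), G.degree v : ℕ) : ℝ) := Nat.cast_le.2 this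
    rw [Nat.cast_mul] at h2
    exact h2
  have e4 : 2 * K * (C (E i) : ℝ) / ε ≤ (E (i + 1) : ℝ) := by
    have h1 : E (i + 1) = E i + 1 + ⌈2 * K * (C (E i) : ℝ) / ε⌉₊ := rfl
    rw [h1]
    push_cast
    have h2 := Nat.le_ceil (2 * K * (C (E i) : ℝ) / ε)
    have h3 : (0 : ℝ) ≤ (E i : ℝ) := by positivity
    linarith
  have e5 : ((hub G (E (i + 1))).card : ℝ) * (C (E i) : ℝ) ≤ ε / 2 * N := by
    have h1 : 2 * K * (C (E i) : ℝ) ≤ (E (i + 1) : ℝ) * ε := by
      rwa [div_le_iff₀ hε] at e4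
    have h2 : (0 : ℝ) ≤ ((hub G (E (i + 1))).card : ℝ) := by positivity
    have h3 := mul_le_mul_of_nonneg_left h1 h2
    have h4 := mul_le_mul_of_nonneg_right e3 hε.le
    have h5 : K * (2 * (((hub G (E (i + 1))).card : ℝ) * (C (E i) : ℝ))) ≤ K * (ε * N) := by
      nlinarith
    have h6 := le_of_mul_le_mul_left h5 (by linarith)
    linarith
  have e6 : ((∑ h ∈ hub G (E i), min (G.degree h) (C (E i)) : ℕ) : ℝ) ≤
      ((∑ h ∈ hub G (E i) \ hub G (E (i + 1)), G.degree h : ℕ) : ℝ) +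
        ((hub G (E (i + 1))).card : ℝ) * (C (E i) : ℝ) := by exact_mod_cast e1
  rw [e2] at e6
  linarith

end Pool.Agent.K1H99.DF
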